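import Pool.Agent.H27.HB.TA

/-!
# MP_8352e3_an, row ACC: the action on `Cl`
-/

set_option autoImplicit false

namespace Pool.Agent.H89.HB
open MeasureTheory Set Filter Topology Pool.Agent.H80.HS Pool.Agent.H93.HQ Pool.Agent.H27.HB
open scoped ContDiff ENNReal

/-- a change of variables is quasi measure preserving -/
theorem qmp {n : ℕ} (Φ : H n → H n) (hΦ : Measurable Φ) (c : ℝ) (hc : c ≠ 0)
    (h1 : ∀ f : H n → ℝ, c * ∫ z, f (Φ z) = ∫ z, f z)
    (h2 : ∀ f : H n → ℝ, Integrable f → Integrable (fun z => f (Φ z))) :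
    Measure.QuasiMeasurePreserving Φ (volume : Measure (H n)) volume := by
  refine ⟨hΦ, Measure.AbsolutelyContinuous.mk fun s hs hs0 => ?_⟩
  rw [Measure.map_apply hΦ hs]
  have hm : MeasurableSet (Φ ⁻¹' s) := hΦ hs
  have e : (fun z => s.indicator (1 : H n → ℝ) (Φ z)) = (Φ ⁻¹' s).indicator 1 := by
    ext z
    rfl
  have hi : Integrable (s.indicator (1 : H n → ℝ)) := by
    rw [integrable_indicator_iff hs]
    exact integrableOn_const (by rw [hs0]; exact ENNReal.zero_ne_top)
  have h3 := h2 _ hi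
  have h4 := h1 (s.indicator (1 : H n → ℝ))
  rw [e] at h3 h4
  rw [integral_indicator_one hs, integral_indicator_one hm, measureReal_def, measureReal_def, hs0,
    ENNReal.toReal_zero] at h4
  have h5 : (volume (Φ ⁻¹' s)).toReal = 0 := (mul_eq_zero.1 h4).resolve_left hc
  rw [integrable_indicator_iff hm] at h3
  have h6 : volume (Φ ⁻¹' s) < ⊤ := by
    have h7 := (integrableOn_const_iff (μ := (volume : Measure (H n))) (s := Φ ⁻¹' s)
      (C := (1 : ℝ))).1 h3
    simpa using h7
  exact (ENNReal.toReal_eq_zero_iff _).1 h5 |>.resolve_right h6.ne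

theorem memLp_comp {n : ℕ} {E : Type} [NormedAddCommGroup E] (Φ : H n → H n)
    (hq : Measure.QuasiMeasurePreserving Φ (volume : Measure (H n)) volume)
    (h2 : ∀ f : H n → ℝ, Integrable f → Integrable (fun z => f (Φ z))) (q : ℝ) (hq0 : 0 < q)
    (u : H n → E) (hu : MemLp u (ENNReal.ofReal q)) :
    MemLp (fun z => u (Φ z)) (ENNReal.ofReal q) := by
  have h0 : ENNReal.ofReal q ≠ 0 := by
    rw [Ne, ENNReal.ofReal_eq_zero, not_le]
    exact hq0
  have hm : AEStronglyMeasurable (fun z => u (Φ z)) volume :=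
    hu.1.comp_quasiMeasurePreserving hq
  rw [← integrable_norm_rpow_iff hm h0 ENNReal.ofReal_ne_top]
  exact h2 _ ((integrable_norm_rpow_iff hu.1 h0 ENNReal.ofReal_ne_top).2 hu)

theorem pf_ACC (hACT : T_ACT) (hACV : T_ACV) : T_ACC := by
  intro n hn p hp1 hp2 a r hr u g hu
  obtain ⟨hu1, hu2, φ, hφ, hφ1, hφ2⟩ := hu
  obtain ⟨v1, v2, v3, -, v5, -, -⟩ := hACV n hn p hp1 hp2 a r hr
  have hps : 0 < ps n p := by
    unfold ps
    have : 0 < 2 * (n : ℝ) + 2 - p := by linarith
    positivity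
  have hq : Measure.QuasiMeasurePreserving (fun z : H n => dil r (mul a z)) volume volume :=
    qmp _ ((continuous_dil r).comp (continuous_mul a)).measurable _ (by positivity) v1 v2
  refine ⟨?_, ?_, fun k => act p a r (φ k), fun k => (hACT n hn p hp1 hp2 a r hr _ (hφ k)).1,
    ?_, ?_⟩
  · exact (memLp_comp _ hq v2 _ hps u hu1).const_mul (r ^ ((2 * n + 2 - p) / p))
  · exact (memLp_comp _ hq v2 p (by linarith) g hu2).const_smul
      (r ^ ((2 * n + 2 - p) / p) * r)
  · refine hφ1.congr fun k => ?_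
    rw [← v3 (fun z => φ k z - u z)]
    refine congrArg (ms (ps n p)) (funext fun z => ?_)
    unfold act
    ring
  · refine hφ2.congr fun k => ?_
    rw [← v5 (fun z => hg (φ k) z - g z), (hACT n hn p hp1 hp2 a r hr _ (hφ k)).2]
    refine congrArg (en p) (funext fun z => ?_)
    unfold actg
    rw [smul_sub]

end Pool.Agent.H89.HB
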