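import Pool.Agent.H27.HB.TA
import Pool.Agent.H27.HB.TD

/-!
# MP_8352e3_an, row MOL: weak gradients in `L^2` are limits of gradients of test functions
-/

set_option autoImplicit false

namespace Pool.Agent.H89.HB
open MeasureTheory Set Filter Topology Pool.Agent.H80.HS Pool.Agent.H93.HQ Pool.Agent.H27.HB
open scoped ContDiff ENNReal

/-- the dilation as a homeomorphism -/
noncomputable def dilH {n : ℕ} (r : ℝ) (hr : r ≠ 0) : H n ≃ₜ H n where
  toFun := dil r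
  invFun := dil r⁻¹
  left_inv := dil_inv_dil hr
  right_inv := dil_dil_inv hr
  continuous_toFun := continuous_dil r
  continuous_invFun := continuous_dil r⁻¹

/-- normalised bumps with small support -/
theorem exists_bump (hCHI : T_CHI) (n : ℕ) (δ : ℝ) (hδ : 0 < δ) : ∃ η : H n → ℝ, Tst η ∧
    (∀ z, 0 ≤ η z) ∧ ∫ z, η z = 1 ∧ ∀ z, δ ≤ N z → η z = 0 := by
  obtain ⟨χ, ⟨hχ1, hχ2⟩, hχ3, hχ4, hχ5⟩ := hCHI n
  have hr : (0 : ℝ) < 2 / δ := by positivity
  have hd : ContDiff ℝ ∞ (dil (2 / δ) : H n → H n) := by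
    unfold dil
    fun_prop
  have hs : ContDiff ℝ ∞ (fun z : H n => χ (dil (2 / δ) z)) := hχ1.comp hd
  have hc : HasCompactSupport (fun z : H n => χ (dil (2 / δ) z)) :=
    hχ2.comp_homeomorph (dilH (2 / δ) hr.ne')
  have h0 : ∀ z : H n, 0 ≤ χ (dil (2 / δ) z) := fun z => (hχ3 _).1
  have hN0 : N (0 : H n) = 0 := by
    have h := N_pow_four (0 : H n)
    have h1 : N4 (0 : H n) = 0 := by
      simp [N4, Pool.Agent.H93.HQ.sq]
    rw [h1] at h
    exact pow_eq_zero_iff (by norm_num) |>.1 h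
  have hpos : 0 < ∫ z : H n, χ (dil (2 / δ) z) := by
    refine hs.continuous.integral_pos_of_hasCompactSupport_nonneg_nonzero (x := (0 : H n)) hc h0 ?_
    have h1 : N (dil (2 / δ) (0 : H n)) = 0 := by rw [N_dil hr.le, hN0, mul_zero]
    rw [hχ4 _ (by rw [h1]; norm_num)]
    exact one_ne_zero
  refine ⟨fun z => (∫ z : H n, χ (dil (2 / δ) z))⁻¹ * χ (dil (2 / δ) z),
    ⟨contDiff_const.mul hs, hc.mul_left⟩, fun z => mul_nonneg (inv_nonneg.2 hpos.le) (h0 z), ?_, ?_⟩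
  · rw [integral_const_mul, inv_mul_cancel₀ hpos.ne']
  · intro z hz
    have h1 : 2 ≤ N (dil (2 / δ) z) := by
      rw [N_dil hr.le, div_mul_eq_mul_div, le_div_iff₀ hδ]
      linarith
    dsimp only
    rw [hχ5 _ h1, mul_zero]

theorem pf_MOL (hMO1 : T_MO1) (hMO2 : T_MO2) (hMO3 : T_MO3) (hCUT : T_CUT) (hCLC : T_CLC)
    (hCHI : T_CHI) : T_MOL := by
  intro n hn u g hu hg2 hw
  have hn' : (1 : ℝ) ≤ n := by exact_mod_cast hn
  have hq1 : 1 ≤ ps n 2 := by
    unfold ps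
    rw [le_div_iff₀ (by linarith)]
    linarith
  have e2 : ENNReal.ofReal 2 = 2 := by norm_num
  have hg2' : MemLp g (ENNReal.ofReal 2) := by rw [e2]; exact hg2
  have hlu : LocallyIntegrable u volume :=
    hu.locallyIntegrable (by rw [ENNReal.one_le_ofReal]; exact hq1)
  have hlg : LocallyIntegrable g volume := hg2.locallyIntegrable (by norm_num)
  obtain ⟨a1, a2⟩ := hMO3 n ℝ (ps n 2) u hq1 hu
  obtain ⟨b1, b2⟩ := hMO3 n (G n) 2 g (by norm_num) hg2'
  have key : ∀ k : ℕ, ∃ η : H n → ℝ, Tst η ∧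
      ∫ z, ‖mol η u z - u z‖ ^ ps n 2 ≤ 1 / ((k : ℝ) + 1) ∧
      ∫ z, ‖mol η g z - g z‖ ^ (2 : ℝ) ≤ 1 / ((k : ℝ) + 1) := by
    intro k
    have hk : (0 : ℝ) < 1 / ((k : ℝ) + 1) := by positivity
    obtain ⟨δ1, hδ1, c1⟩ := a2 _ hk
    obtain ⟨δ2, hδ2, c2⟩ := b2 _ hk
    obtain ⟨η, h1, h2, h3, h4⟩ := exists_bump hCHI n (min δ1 δ2) (lt_min hδ1 hδ2)
    exact ⟨η, h1, c1 η h1 h2 h3 fun z hz => h4 z ((min_le_left _ _).trans hz),
      c2 η h1 h2 h3 fun z hz => h4 z ((min_le_right _ _).trans hz)⟩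
  choose η hη hη1 hη2 using key
  have hgr : ∀ k, hg (mol (η k) u) = mol (η k) g := fun k =>
    funext (hMO2 n (η k) u g hn (hη k) hlu hlg hw)
  have hlim : Tendsto (fun k : ℕ => 1 / ((k : ℝ) + 1)) atTop (𝓝 0) :=
    tendsto_one_div_add_atTop_nhds_zero_nat
  refine (hCLC n hn 2 (by norm_num) (by linarith)).2 u g (fun k => mol (η k) u)
    (fun k => hg (mol (η k) u)) ?_ hu hg2' ?_ ?_
  · intro k
    refine hCUT n hn 2 (by norm_num) (by linarith) _ (hMO1 n (η k) u (hη k) hlu)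
      (a1 (η k) (hη k)) ?_
    rw [hgr k]
    exact b1 (η k) (hη k)
  · refine squeeze_zero (fun k => ?_) (fun k => ?_) hlim
    · exact integral_nonneg fun z => Real.rpow_nonneg (abs_nonneg _) _
    · exact hη1 k
  · refine squeeze_zero (fun k => ?_) (fun k => ?_) hlim
    · exact integral_nonneg fun z => Real.rpow_nonneg (norm_nonneg _) _
    · have h1 := hη2 k
      unfold en
      rw [hgr k]
      exact h1

end Pool.Agent.H89.HB
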